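import Pool.Agent.Helper42.KS.Goals

/-!
Mordell's bound for complete exponential sums `Σ e((a y^k + b y)/p)` (MP_40ec72_an, packet MOR).
-/

set_option autoImplicit false

open Finset

namespace Pool.Agent.Helper42.KS.PkMOR

open scoped ComplexConjugate

theorem map_sum' {ι F : Type} [AddCommGroup F] (ψ : AddChar F ℂ) (s : Finset ι) (f : ι → F) :
    ψ (∑ i ∈ s, f i) = ∏ i ∈ s, ψ (f i) := by
  classical
  induction s using Finset.induction_on with
  | empty => simp
  | insert a s ha ih => rw [sum_insert ha, prod_insert ha, AddChar.map_add_eq_mul, ih]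

/-- equal power sums of orders `1..k` give a permutation -/
theorem perm_of_psum {F : Type} [Field F] (k : ℕ)
    (hk : ∀ j : ℕ, 1 ≤ j → j ≤ k → (j : F) ≠ 0) (x y : Fin k → F)
    (h : ∀ r : ℕ, 1 ≤ r → r ≤ k → ∑ i, x i ^ r = ∑ i, y i ^ r) :
    ∃ σ : Equiv.Perm (Fin k), y = x ∘ σ := by
  classical
  have he : ∀ j : ℕ, j ≤ k → (univ.val.map x).esymm j = (univ.val.map y).esymm j := by
    intro j
    induction j using Nat.strong_induction_on with
    | _ j ih =>
      intro hj
      rcases Nat.eq_zero_or_pos j with rfl | hpos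
      · rw [← MvPolynomial.aeval_esymm_eq_multiset_esymm (Fin k) F,
          ← MvPolynomial.aeval_esymm_eq_multiset_esymm (Fin k) F]
        simp
      · have key : ∀ z : Fin k → F, (j : F) * (univ.val.map z).esymm j =
            (-1) ^ (j + 1) * ∑ a ∈ antidiagonal j with a.1 < j,
              (-1) ^ a.1 * (univ.val.map z).esymm a.1 * ∑ i, z i ^ a.2 := by
          intro z
          have h0 := congrArg (MvPolynomial.aeval z) (MvPolynomial.mul_esymm_eq_sum (Fin k) F j)
          simp only [map_mul, map_natCast, map_pow, map_neg, map_one, map_sum,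
            MvPolynomial.aeval_esymm_eq_multiset_esymm, MvPolynomial.psum,
            MvPolynomial.aeval_X] at h0
          exact h0
        have h1 := key x
        have h2 := key y
        have h3 : (j : F) * (univ.val.map x).esymm j = (j : F) * (univ.val.map y).esymm j := by
          rw [h1, h2]
          congr 1
          refine Finset.sum_congr rfl (fun a ha => ?_)
          rw [Finset.mem_filter, Finset.HasAntidiagonal.mem_antidiagonal] at ha
          rw [ih a.1 ha.2 (by omega), h a.2 (by omega) (by omega)]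
        exact mul_left_cancel₀ (hk j hpos hj) h3
  have hm : univ.val.map x = univ.val.map y := by
    have hx : Multiset.card (univ.val.map x) = k := by simp
    have hy : Multiset.card (univ.val.map y) = k := by simp
    have h1 : ((univ.val.map x).map fun t => Polynomial.X - Polynomial.C t).prod =
        ((univ.val.map y).map fun t => Polynomial.X - Polynomial.C t).prod := by
      rw [Multiset.prod_X_sub_X_eq_sum_esymm, Multiset.prod_X_sub_X_eq_sum_esymm, hx, hy]
      refine Finset.sum_congr rfl (fun j hj => ?_)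
      rw [Finset.mem_range] at hj
      rw [he j (by omega)]
    have h2 := congrArg Polynomial.roots h1
    rwa [Polynomial.roots_multiset_prod_X_sub_C, Polynomial.roots_multiset_prod_X_sub_C] at h2
  have hcard : ∀ v : F, Fintype.card {i // y i = v} = Fintype.card {i // x i = v} := by
    intro v
    have h1 := congrArg (Multiset.count v) hm
    rw [Multiset.count_map, Multiset.count_map] at h1
    rw [Fintype.card_subtype, Fintype.card_subtype]
    have g : ∀ z : Fin k → F, (univ.filter (fun i => z i = v)).card =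
        Multiset.card (Multiset.filter (fun i => v = z i) univ.val) := by
      intro z
      rw [Finset.card_def, Finset.filter_val]
      refine congrArg Multiset.card (Multiset.filter_congr ?_)
      intro i _
      exact eq_comm
    rw [g, g, h1]
  let e : ∀ v : F, {i // y i = v} ≃ {i // x i = v} := fun v => Fintype.equivOfCardEq (hcard v)
  refine ⟨((Equiv.sigmaFiberEquiv y).symm.trans (Equiv.sigmaCongrRight e)).trans
    (Equiv.sigmaFiberEquiv x), ?_⟩
  funext i
  exact (e (y i) ⟨i, rfl⟩).2.symm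

section

variable {p : ℕ} [hp : Fact p.Prime]

/-- the value of the polynomial without constant term -/
def P (k : ℕ) (u : Fin k → ZMod p) (x : ZMod p) : ZMod p := ∑ r, u r * x ^ ((r : ℕ) + 1)

/-- the exponential sum -/
noncomputable def S (k : ℕ) (u : Fin k → ZMod p) : ℂ :=
  ∑ x : ZMod p, ZMod.stdAddChar (P k u x)

theorem moment_eq (k : ℕ) :
    ∑ u : Fin k → ZMod p, ‖S k u‖ ^ (2 * k) =
      ∑ x : Fin k → ZMod p, ∑ y : Fin k → ZMod p,
        if ∀ r : Fin k, (∑ i, x i ^ ((r : ℕ) + 1)) - ∑ i, y i ^ ((r : ℕ) + 1) = 0 then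
          (p : ℝ) ^ k else 0 := by
  have hC : ((∑ u : Fin k → ZMod p, ‖S k u‖ ^ (2 * k) : ℝ) : ℂ) =
      ((∑ x : Fin k → ZMod p, ∑ y : Fin k → ZMod p,
        if ∀ r : Fin k, (∑ i, x i ^ ((r : ℕ) + 1)) - ∑ i, y i ^ ((r : ℕ) + 1) = 0 then
          (p : ℝ) ^ k else 0 : ℝ) : ℂ) := by
    push_cast
    have h1 : ∀ u : Fin k → ZMod p, ((‖S k u‖ : ℂ)) ^ (2 * k) =
        ∑ x : Fin k → ZMod p, ∑ y : Fin k → ZMod p,
          (ZMod.stdAddChar (∑ r : Fin k, u r *
            ((∑ i, x i ^ ((r : ℕ) + 1)) - ∑ i, y i ^ ((r : ℕ) + 1))) : ℂ) := by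
      intro u
      have h2 : ((‖S k u‖ : ℂ)) ^ (2 * k) = (S k u) ^ k * (conj (S k u)) ^ k := by
        rw [← mul_pow, Complex.mul_conj', pow_mul]
      have h3 : conj (S k u) = ∑ y : ZMod p, ZMod.stdAddChar (-(P k u y)) := by
        rw [S, map_sum]
        refine Finset.sum_congr rfl (fun y _ => ?_)
        rw [AddChar.map_neg_eq_conj]
      rw [h2, h3, S, Fintype.sum_pow, Fintype.sum_pow, Finset.sum_mul_sum]
      refine Finset.sum_congr rfl (fun x _ => Finset.sum_congr rfl (fun y _ => ?_))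
      rw [← map_sum', ← map_sum', ← AddChar.map_add_eq_mul]
      congr 1
      rw [Finset.sum_neg_distrib, ← sub_eq_add_neg]
      simp only [P]
      rw [Finset.sum_comm, Finset.sum_comm (s := (univ : Finset (Fin k)))
        (f := fun i r => u r * y i ^ ((r : ℕ) + 1)), ← Finset.sum_sub_distrib]
      refine Finset.sum_congr rfl (fun r _ => ?_)
      rw [mul_sub, Finset.mul_sum, Finset.mul_sum]
    rw [Finset.sum_congr rfl (fun u _ => h1 u)]
    rw [Finset.sum_comm]
    refine Finset.sum_congr rfl (fun x _ => ?_)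
    rw [Finset.sum_comm]
    refine Finset.sum_congr rfl (fun y _ => ?_)
    have h4 : ∀ u : Fin k → ZMod p, (ZMod.stdAddChar (∑ r : Fin k, u r *
            ((∑ i, x i ^ ((r : ℕ) + 1)) - ∑ i, y i ^ ((r : ℕ) + 1))) : ℂ) =
        ∏ r : Fin k, (ZMod.stdAddChar (u r *
            ((∑ i, x i ^ ((r : ℕ) + 1)) - ∑ i, y i ^ ((r : ℕ) + 1))) : ℂ) := fun u => map_sum' _ _ _
    rw [Finset.sum_congr rfl (fun u _ => h4 u), ← Fintype.prod_sum (fun (r : Fin k) (t : ZMod p) =>
      (ZMod.stdAddChar (t * ((∑ i, x i ^ ((r : ℕ) + 1)) - ∑ i, y i ^ ((r : ℕ) + 1))) : ℂ))]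
    have h5 : ∀ r : Fin k, ∑ t : ZMod p, (ZMod.stdAddChar (t *
        ((∑ i, x i ^ ((r : ℕ) + 1)) - ∑ i, y i ^ ((r : ℕ) + 1))) : ℂ) =
        if (∑ i, x i ^ ((r : ℕ) + 1)) - ∑ i, y i ^ ((r : ℕ) + 1) = 0 then (p : ℂ) else 0 := by
      intro r
      rw [AddChar.sum_mulShift _ (ZMod.isPrimitive_stdAddChar p), ZMod.card]
      split_ifs <;> simp
    rw [Finset.prod_congr rfl (fun r _ => h5 r), Fintype.prod_ite_zero]
    split_ifs <;> simp
  exact_mod_cast hC

theorem moment_le (k : ℕ) (hk : k < p) :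
    ∑ u : Fin k → ZMod p, ‖S k u‖ ^ (2 * k) ≤ (k.factorial : ℝ) * (p : ℝ) ^ (2 * k) := by
  classical
  rw [moment_eq]
  have hp0 : (0 : ℝ) ≤ (p : ℝ) ^ k := by positivity
  have h1 : ∀ x : Fin k → ZMod p, (∑ y : Fin k → ZMod p,
        if ∀ r : Fin k, (∑ i, x i ^ ((r : ℕ) + 1)) - ∑ i, y i ^ ((r : ℕ) + 1) = 0 then
          (p : ℝ) ^ k else 0) ≤ (k.factorial : ℝ) * (p : ℝ) ^ k := by
    intro x
    rw [← Finset.sum_filter, Finset.sum_const, nsmul_eq_mul]
    refine mul_le_mul_of_nonneg_right ?_ hp0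
    have h2 : (univ.filter (fun y : Fin k → ZMod p =>
        ∀ r : Fin k, (∑ i, x i ^ ((r : ℕ) + 1)) - ∑ i, y i ^ ((r : ℕ) + 1) = 0)).card ≤
        k.factorial := by
      have h3 : (univ.filter (fun y : Fin k → ZMod p =>
          ∀ r : Fin k, (∑ i, x i ^ ((r : ℕ) + 1)) - ∑ i, y i ^ ((r : ℕ) + 1) = 0)) ⊆
          Finset.image (fun σ : Equiv.Perm (Fin k) => x ∘ (σ : Fin k → Fin k)) univ := by
        intro y hy
        rw [Finset.mem_filter] at hy
        rw [Finset.mem_image]
        obtain ⟨σ, hσ⟩ := perm_of_psum (F := ZMod p) k (by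
          intro j hj hjk h0
          rw [ZMod.natCast_eq_zero_iff] at h0
          have := Nat.le_of_dvd (by omega) h0
          omega) x y (by
          intro r hr hrk
          have h4 := hy.2 ⟨r - 1, by omega⟩
          have h5 : r - 1 + 1 = r := by omega
          simp only [h5] at h4
          exact sub_eq_zero.1 h4)
        exact ⟨σ, Finset.mem_univ _, hσ.symm⟩
      refine (Finset.card_le_card h3).trans (Finset.card_image_le.trans ?_)
      rw [Finset.card_univ, Fintype.card_perm, Fintype.card_fin]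
    exact_mod_cast h2
  refine (Finset.sum_le_sum (fun x _ => h1 x)).trans ?_
  rw [Finset.sum_const, Finset.card_univ, Fintype.card_fun, ZMod.card, Fintype.card_fin,
    nsmul_eq_mul]
  push_cast
  rw [two_mul, pow_add]
  apply le_of_eq
  ring

/-- the coefficients of `f (l x + m) - f m`, `f = a x^k + b x` -/
def uv (k : ℕ) (a b l m : ZMod p) : Fin k → ZMod p := fun r =>
  a * (k.choose ((r : ℕ) + 1) : ZMod p) * l ^ ((r : ℕ) + 1) * m ^ (k - ((r : ℕ) + 1)) +
    if (r : ℕ) = 0 then b * l else 0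

theorem P_uv (k : ℕ) (hk : 1 ≤ k) (a b l m x : ZMod p) :
    P k (uv k a b l m) x = a * (l * x + m) ^ k + b * (l * x + m) - (a * m ^ k + b * m) := by
  obtain ⟨n, rfl⟩ : ∃ n, k = n + 1 := ⟨k - 1, by omega⟩
  have h1 : (l * x + m) ^ (n + 1) = m ^ (n + 1) + ∑ r : Fin (n + 1),
      ((n + 1).choose ((r : ℕ) + 1) : ZMod p) * l ^ ((r : ℕ) + 1) * m ^ (n + 1 - ((r : ℕ) + 1)) *
        x ^ ((r : ℕ) + 1) := by
    rw [add_pow, Finset.sum_range_succ', add_comm]
    congr 1
    · simp
    · rw [Finset.sum_range]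
      refine Finset.sum_congr rfl (fun r _ => ?_)
      rw [mul_pow]
      ring
  rw [h1, P]
  simp only [uv, add_mul, Finset.sum_add_distrib]
  have h2 : ∑ r : Fin (n + 1), (if (r : ℕ) = 0 then b * l else 0) * x ^ ((r : ℕ) + 1) =
      b * l * x := by
    rw [Finset.sum_eq_single (0 : Fin (n + 1))]
    · simp
    · intro r _ hr
      have : (r : ℕ) ≠ 0 := by
        intro h
        apply hr
        exact Fin.ext h
      simp [this]
    · simp
  rw [h2, mul_add, Finset.mul_sum]
  have h3 : ∀ r : Fin (n + 1), a * ((n + 1).choose ((r : ℕ) + 1) : ZMod p) * l ^ ((r : ℕ) + 1) *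
      m ^ (n + 1 - ((r : ℕ) + 1)) * x ^ ((r : ℕ) + 1) =
      a * (((n + 1).choose ((r : ℕ) + 1) : ZMod p) * l ^ ((r : ℕ) + 1) *
        m ^ (n + 1 - ((r : ℕ) + 1)) * x ^ ((r : ℕ) + 1)) := fun r => by ring
  rw [Finset.sum_congr rfl (fun r _ => h3 r)]
  ring

theorem S_uv (k : ℕ) (hk : 1 ≤ k) (a b l m : ZMod p) (hl : l ≠ 0) :
    ‖S k (uv k a b l m)‖ = ‖∑ x : ZMod p, (ZMod.stdAddChar (a * x ^ k + b * x) : ℂ)‖ := by
  have h1 : S k (uv k a b l m) = (∑ x : ZMod p, (ZMod.stdAddChar (a * x ^ k + b * x) : ℂ)) *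
      ZMod.stdAddChar (-(a * m ^ k + b * m)) := by
    rw [S, Finset.sum_mul]
    have e : Function.Bijective (fun x : ZMod p => l * x + m) := by
      refine Finite.injective_iff_bijective.1 ?_
      intro x y hxy
      have h2 : l * x + m = l * y + m := hxy
      exact mul_left_cancel₀ hl (add_right_cancel h2)
    rw [← e.sum_comp (fun x => (ZMod.stdAddChar (a * x ^ k + b * x) : ℂ) *
      ZMod.stdAddChar (-(a * m ^ k + b * m)))]
    refine Finset.sum_congr rfl (fun x _ => ?_)
    rw [← AddChar.map_add_eq_mul, P_uv k hk, sub_eq_add_neg]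
  rw [h1, norm_mul, AddChar.norm_apply, mul_one]

theorem fiber_le (k : ℕ) (hk : 3 ≤ k) (hkp : k < p) (a b : ZMod p) (ha : a ≠ 0)
    (v : Fin k → ZMod p) :
    ((((univ : Finset (ZMod p)).filter (fun l => l ≠ 0)) ×ˢ (univ : Finset (ZMod p))).filter
      (fun z => uv k a b z.1 z.2 = v)).card ≤ k := by
  classical
  have hk0 : (k : ZMod p) ≠ 0 := by
    intro h0
    rw [ZMod.natCast_eq_zero_iff] at h0
    have := Nat.le_of_dvd (by omega) h0
    omega
  have h1 : ∀ z ∈ ((((univ : Finset (ZMod p)).filter (fun l => l ≠ 0)) ×ˢ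
      (univ : Finset (ZMod p))).filter (fun z => uv k a b z.1 z.2 = v)),
      z.1 ≠ 0 ∧ a * z.1 ^ k = v ⟨k - 1, by omega⟩ ∧
        a * k * z.1 ^ (k - 1) * z.2 = v ⟨k - 2, by omega⟩ := by
    intro z hz
    rw [Finset.mem_filter, Finset.mem_product, Finset.mem_filter] at hz
    refine ⟨hz.1.1.2, ?_, ?_⟩
    · rw [← hz.2]
      have e1 : k - 1 + 1 = k := by omega
      have e2 : k - 1 ≠ 0 := by omega
      simp only [uv, e1, e2, Nat.choose_self, Nat.cast_one, mul_one, Nat.sub_self, pow_zero,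
        if_false, add_zero]
    · rw [← hz.2]
      have e1 : k - 2 + 1 = k - 1 := by omega
      have e2 : k - 2 ≠ 0 := by omega
      have e3 : k - (k - 1) = 1 := by omega
      have e4 : k.choose (k - 1) = k := by
        rw [Nat.choose_symm (by omega : 1 ≤ k)]
        simp
      simp only [uv, e1, e2, e3, e4, pow_one, if_false, add_zero]
  have h2 : Set.InjOn (fun z : ZMod p × ZMod p => z.1)
      (((((univ : Finset (ZMod p)).filter (fun l => l ≠ 0)) ×ˢ
      (univ : Finset (ZMod p))).filter (fun z => uv k a b z.1 z.2 = v) :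
        Finset (ZMod p × ZMod p)) : Set (ZMod p × ZMod p)) := by
    intro z hz z' hz' hzz
    have g := h1 z hz
    have g' := h1 z' hz'
    have hzz' : z.1 = z'.1 := hzz
    refine Prod.ext hzz' ?_
    have g3 := g.2.2.trans g'.2.2.symm
    rw [← hzz'] at g3
    have g4 : a * (k : ZMod p) * z.1 ^ (k - 1) ≠ 0 :=
      mul_ne_zero (mul_ne_zero ha hk0) (pow_ne_zero _ g.1)
    exact mul_left_cancel₀ g4 g3
  rw [← Finset.card_image_of_injOn h2]
  have h3 : (((((univ : Finset (ZMod p)).filter (fun l => l ≠ 0)) ×ˢ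
      (univ : Finset (ZMod p))).filter (fun z => uv k a b z.1 z.2 = v)).image
      (fun z : ZMod p × ZMod p => z.1)) ⊆
      (Polynomial.nthRoots k (v ⟨k - 1, by omega⟩ / a)).toFinset := by
    intro l hl
    rw [Finset.mem_image] at hl
    obtain ⟨z, hz, rfl⟩ := hl
    rw [Multiset.mem_toFinset, Polynomial.mem_nthRoots (by omega), eq_div_iff ha, mul_comm]
    exact (h1 z hz).2.1
  exact (Finset.card_le_card h3).trans ((Multiset.toFinset_card_le _).trans
    (Polynomial.card_nthRoots _ _))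

theorem main_ineq (k : ℕ) (hk : 3 ≤ k) (hkp : k < p) (a b : ZMod p) (ha : a ≠ 0) :
    ((p : ℝ) - 1) * p * ‖∑ x : ZMod p, (ZMod.stdAddChar (a * x ^ k + b * x) : ℂ)‖ ^ (2 * k) ≤
      k * (k.factorial * (p : ℝ) ^ (2 * k)) := by
  classical
  set A : Finset (ZMod p × ZMod p) :=
    ((univ : Finset (ZMod p)).filter (fun l => l ≠ 0)) ×ˢ (univ : Finset (ZMod p)) with hA
  have hcard : (A.card : ℝ) = ((p : ℝ) - 1) * p := by
    rw [hA, Finset.card_product, Finset.card_univ, ZMod.card]
    have h1 : ((univ : Finset (ZMod p)).filter (fun l => l ≠ 0)).card = p - 1 := by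
      rw [Finset.filter_ne' univ (0 : ZMod p), Finset.card_erase_of_mem (Finset.mem_univ _),
        Finset.card_univ, ZMod.card]
    rw [h1, Nat.cast_mul, Nat.cast_sub hp.out.one_lt.le, Nat.cast_one]
  have h1 : ∑ z ∈ A, ‖S k (uv k a b z.1 z.2)‖ ^ (2 * k) =
      ((p : ℝ) - 1) * p * ‖∑ x : ZMod p, (ZMod.stdAddChar (a * x ^ k + b * x) : ℂ)‖ ^ (2 * k) := by
    rw [← hcard, ← nsmul_eq_mul, ← Finset.sum_const]
    refine Finset.sum_congr rfl (fun z hz => ?_)
    rw [hA, Finset.mem_product, Finset.mem_filter] at hz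
    rw [S_uv k (by omega) a b z.1 z.2 hz.1.2]
  rw [← h1]
  rw [← Finset.sum_fiberwise A (fun z => uv k a b z.1 z.2)
    (fun z => ‖S k (uv k a b z.1 z.2)‖ ^ (2 * k))]
  have h2 : ∀ v : Fin k → ZMod p, (∑ z ∈ A.filter (fun z => uv k a b z.1 z.2 = v),
      ‖S k (uv k a b z.1 z.2)‖ ^ (2 * k)) ≤ (k : ℝ) * ‖S k v‖ ^ (2 * k) := by
    intro v
    have h3 : (∑ z ∈ A.filter (fun z => uv k a b z.1 z.2 = v),
        ‖S k (uv k a b z.1 z.2)‖ ^ (2 * k)) =
        ((A.filter (fun z => uv k a b z.1 z.2 = v)).card : ℝ) * ‖S k v‖ ^ (2 * k) := by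
      rw [← nsmul_eq_mul, ← Finset.sum_const]
      refine Finset.sum_congr rfl (fun z hz => ?_)
      rw [(Finset.mem_filter.1 hz).2]
    rw [h3]
    refine mul_le_mul_of_nonneg_right ?_ (by positivity)
    exact_mod_cast fiber_le k hk hkp a b ha v
  refine (Finset.sum_le_sum (fun v _ => h2 v)).trans ?_
  rw [← Finset.mul_sum]
  exact mul_le_mul_of_nonneg_left (moment_le k hkp) (by positivity)

end

theorem GG_eq (k p : ℕ) [hp : Fact p.Prime] (a b : ℤ) :
    GG k a p b = (p : ℂ)⁻¹ * ∑ x : ZMod p,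
      (ZMod.stdAddChar ((a : ZMod p) * x ^ k + (b : ZMod p) * x) : ℂ) := by
  rw [GG]
  congr 1
  have hp0 : (p : ℝ) ≠ 0 := by
    have := hp.out.pos
    positivity
  refine Finset.sum_nbij' (fun y : ℕ => (y : ZMod p)) (fun x : ZMod p => x.val) ?_ ?_ ?_ ?_ ?_
  · intro y _
    exact Finset.mem_univ _
  · intro x _
    exact Finset.mem_range.2 (ZMod.val_lt x)
  · intro y hy
    exact ZMod.val_cast_of_lt (Finset.mem_range.1 hy)
  · intro x _
    exact ZMod.natCast_zmod_val x
  · intro y _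
    have h1 : ((a : ZMod p) * (y : ZMod p) ^ k + (b : ZMod p) * (y : ZMod p)) =
        ((a * (y : ℤ) ^ k + b * (y : ℤ) : ℤ) : ZMod p) := by
      push_cast
      ring
    rw [h1, ZMod.stdAddChar_coe, ee]
    congr 1
    push_cast
    ring

theorem thm : G_MOR := by
  intro k hk
  refine ⟨2 * k * k.factorial, ?_⟩
  intro p a b hp hpa
  haveI : Fact p.Prime := ⟨hp⟩
  have hp1 : (1 : ℝ) ≤ p := by exact_mod_cast hp.one_lt.le
  have hp2 : (2 : ℝ) ≤ p := by exact_mod_cast hp.two_le
  have hp0 : (0 : ℝ) < p := by linarith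
  have hk3 : (3 : ℝ) ≤ k := by exact_mod_cast hk
  have hf1 : (1 : ℝ) ≤ k.factorial := by exact_mod_cast k.factorial_pos
  have hC1 : (1 : ℝ) ≤ 2 * k * k.factorial := by nlinarith
  have hkC : (k : ℝ) ≤ 2 * k * k.factorial := by nlinarith
  have hnorm : ‖GG k a p b‖ = (p : ℝ)⁻¹ * ‖∑ x : ZMod p,
      (ZMod.stdAddChar ((a : ZMod p) * x ^ k + (b : ZMod p) * x) : ℂ)‖ := by
    rw [GG_eq, norm_mul, norm_inv, Complex.norm_natCast]
  set T : ℝ := ‖∑ x : ZMod p,
      (ZMod.stdAddChar ((a : ZMod p) * x ^ k + (b : ZMod p) * x) : ℂ)‖ with hT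
  have hT0 : 0 ≤ T := norm_nonneg _
  have hTp : T ≤ p := by
    refine (norm_sum_le _ _).trans ?_
    rw [Finset.sum_congr rfl (fun x _ => AddChar.norm_apply _ _), Finset.sum_const,
      Finset.card_univ, ZMod.card, nsmul_eq_mul, mul_one]
  have hpow : (p : ℝ) ^ (-(1 / (k : ℝ))) * (p : ℝ) = (p : ℝ) ^ (1 - 1 / (k : ℝ)) := by
    rw [← Real.rpow_add_one hp0.ne']
    congr 1
    ring
  have hgoal : T ≤ 2 * k * k.factorial * (p : ℝ) ^ (1 - 1 / (k : ℝ)) := by
    rcases le_or_gt p k with hpk | hpk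
    · -- small primes
      have hpk' : (p : ℝ) ≤ k := by exact_mod_cast hpk
      have h1 : (1 : ℝ) ≤ (p : ℝ) ^ (1 - 1 / (k : ℝ)) := by
        refine Real.one_le_rpow hp1 ?_
        rw [sub_nonneg, div_le_one (by linarith)]
        linarith
      calc T ≤ p := hTp
        _ ≤ k := hpk'
        _ ≤ 2 * k * k.factorial := hkC
        _ ≤ 2 * k * k.factorial * (p : ℝ) ^ (1 - 1 / (k : ℝ)) := by
          nlinarith
    · have ha : (a : ZMod p) ≠ 0 := by
        intro h0
        rw [ZMod.intCast_zmod_eq_zero_iff_dvd] at h0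
        exact hpa h0
      have h1 := main_ineq (p := p) k hk hpk (a : ZMod p) (b : ZMod p) ha
      rw [← hT] at h1
      have h2 : T ^ (2 * k) ≤ 2 * k * k.factorial * (p : ℝ) ^ (2 * k - 2) := by
        have e1 : (p : ℝ) ^ (2 * k) = (p : ℝ) ^ (2 * k - 2) * (p * p) := by
          rw [← pow_two, ← pow_add]
          congr 1
          omega
        rw [e1] at h1
        have h3 : (p : ℝ) * p / 2 * T ^ (2 * k) ≤ ((p : ℝ) - 1) * p * T ^ (2 * k) := by
          refine mul_le_mul_of_nonneg_right ?_ (by positivity)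
          nlinarith
        have h4 : (p : ℝ) * p * T ^ (2 * k) ≤
            (p : ℝ) * p * (2 * k * k.factorial * (p : ℝ) ^ (2 * k - 2)) := by
          nlinarith
        exact le_of_mul_le_mul_left h4 (by positivity)
      have h3 : T ^ (2 * k) ≤ (2 * k * k.factorial * (p : ℝ) ^ (1 - 1 / (k : ℝ))) ^ (2 * k) := by
        refine h2.trans ?_
        rw [mul_pow]
        have e2 : ((p : ℝ) ^ (1 - 1 / (k : ℝ))) ^ (2 * k) = (p : ℝ) ^ (2 * k - 2) := by
          rw [← Real.rpow_natCast, ← Real.rpow_mul hp0.le, ← Real.rpow_natCast]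
          congr 1
          rw [Nat.cast_sub (by omega)]
          push_cast
          field_simp
        rw [e2]
        refine mul_le_mul_of_nonneg_right ?_ (by positivity)
        exact le_self_pow₀ hC1 (by omega)
      exact le_of_pow_le_pow_left₀ (by omega) (by positivity) h3
  rw [hnorm]
  have h5 : (p : ℝ)⁻¹ * T ≤ (p : ℝ)⁻¹ * (2 * k * k.factorial * (p : ℝ) ^ (1 - 1 / (k : ℝ))) :=
    mul_le_mul_of_nonneg_left hgoal (by positivity)
  refine h5.trans (le_of_eq ?_)
  rw [← hpow]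
  field_simp

end Pool.Agent.Helper42.KS.PkMOR
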